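import Pool.Agent.K6.H10.SY.Stmt

/-!
# The definitions on compact groups of isometries used in the results
-/

set_option autoImplicit false

noncomputable section

namespace Pool.Agent.K6.H10.MG

open Pool.Agent.K6.H10.SY

/-- a continuous action of a topological group on `ℂ³` by unitary maps -/
structure UnitaryAction {X : Type} [Group X] [TopologicalSpace X] (ρ : X → V →L[ℝ] V) : Prop where
  cont : Continuous ρ
  one : ∀ z, ρ 1 z = z
  mul : ∀ g h z, ρ (g * h) z = ρ g (ρ h z)
  csmul : ∀ (x : X) (c : ℂ) (z : V), ρ x (c • z) = c • ρ x z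
  isom : ∀ x z w, hp (ρ x z) (ρ x w) = hp z w

section

variable {X : Type}

/-- invariance of a two-form -/
def Inv (ρ : X → V →L[ℝ] V) (Ω : V → Bil) : Prop :=
  ∀ x z v w, Ω (ρ x z) (ρ x v) (ρ x w) = Ω z v w

/-- the pull-backs of a two-form by the elements of the group -/
def orbit (ρ : X → V →L[ℝ] V) (Ω : V → Bil) : Set (V → Bil) :=
  {η | ∃ x, ∀ z v w, η z v w = Ω (ρ x z) (ρ x v) (ρ x w)}

/-- all convex combinations of the pull-backs are nondegenerate -/
def ConvNondeg (ρ : X → V →L[ℝ] V) (Ω : V → Bil) : Prop :=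
  ∀ η ∈ convexHull ℝ (orbit ρ Ω), Nondeg η

/-- the reflection with the normal `u` -/
def refl (u y : V) : V := y - (2 * hp u y / hp u u) • u

/-- through every point passes a mirror: a line which is fixed pointwise by an element of the group
which acts on the projective plane as the reflection with the normal `u` -/
def HasMirrors (ρ : X → V →L[ℝ] V) : Prop :=
  ∀ z : V, z ≠ 0 → ∃ u : V, u ≠ 0 ∧ hp u z = 0 ∧ ∃ (x : X) (c : ℂ), c ≠ 0 ∧
    ∀ y, ρ x y = c • refl u y

/-- a real vector as a complex vector -/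
def re3 (u : Fin 3 → ℝ) : V := fun i => (u i : ℂ)

/-- the group contains the half turns about all real axes, as `SO(3)` does -/
def HasHalfTurns (ρ : X → V →L[ℝ] V) : Prop :=
  ∀ u : Fin 3 → ℝ, u ≠ 0 → ∃ x, ∀ y, ρ x y = -refl (re3 u) y

/-- the group contains the reflections whose normal is orthogonal to the first basis vector, as
`U(2)` does -/
def HasPlaneReflections (ρ : X → V →L[ℝ] V) : Prop :=
  ∀ u : V, u ≠ 0 → u 0 = 0 → ∃ x, ∀ y, ρ x y = refl u y

end

end Pool.Agent.K6.H10.MG
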