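import Pool.Agent.K6.H10.MG.Res

/-!
# Groups with mirrors: rotations of real three-space, and the unitary group of a plane
-/

set_option autoImplicit false

open scoped Topology ComplexConjugate

noncomputable section

namespace Pool.Agent.K6.H10.MG

open Pool.Agent.K6.H10.SY
open Pool.Agent.K6.H10.SU (hp_eq)

/-- a nonzero real vector orthogonal to two real vectors -/
theorem exists_real (a b : Fin 3 → ℝ) : ∃ u : Fin 3 → ℝ, u ≠ 0 ∧
    u 0 * a 0 + u 1 * a 1 + u 2 * a 2 = 0 ∧ u 0 * b 0 + u 1 * b 1 + u 2 * b 2 = 0 := by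
  let L : (Fin 3 → ℝ) →ₗ[ℝ] (Fin 2 → ℝ) :=
    { toFun := fun u => ![u 0 * a 0 + u 1 * a 1 + u 2 * a 2, u 0 * b 0 + u 1 * b 1 + u 2 * b 2]
      map_add' := fun u v => by
        funext i
        fin_cases i <;> simp <;> ring
      map_smul' := fun c u => by
        funext i
        fin_cases i <;> simp <;> ring }
  have h1 : ¬ Function.Injective L := fun h => by
    have h2 := LinearMap.finrank_le_finrank_of_injective h
    simp at h2
  rw [← LinearMap.ker_eq_bot, Submodule.eq_bot_iff] at h1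
  push Not at h1
  obtain ⟨u, h2, h3⟩ := h1
  have h4 : L u = 0 := h2
  have h5 := congrFun h4 0
  have h6 := congrFun h4 1
  exact ⟨u, h3, by simpa [L] using h5, by simpa [L] using h6⟩

theorem mirrors_of_halfTurns {X : Type} {ρ : X → V →L[ℝ] V} (h : HasHalfTurns ρ) :
    HasMirrors ρ := by
  intro z _
  obtain ⟨u, hu, h1, h2⟩ := exists_real (fun i => (z i).re) (fun i => (z i).im)
  obtain ⟨x, hx⟩ := h u hu
  refine ⟨re3 u, ?_, ?_, x, -1, by norm_num, fun y => by rw [hx, neg_one_smul]⟩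
  · intro h0
    refine hu (funext fun i => ?_)
    have := congrFun h0 i
    have h3 : ((u i : ℝ) : ℂ) = 0 := this
    exact_mod_cast h3
  · rw [hp_eq]
    apply Complex.ext
    · simp only [re3, Complex.conj_ofReal, Complex.add_re, Complex.mul_re, Complex.ofReal_re,
        Complex.ofReal_im, zero_mul, sub_zero, Complex.zero_re]
      exact h1
    · simp only [re3, Complex.conj_ofReal, Complex.add_im, Complex.mul_im, Complex.ofReal_re,
        Complex.ofReal_im, zero_mul, add_zero, Complex.zero_im]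
      exact h2

theorem mirrors_of_plane {X : Type} {ρ : X → V →L[ℝ] V} (h : HasPlaneReflections ρ) :
    HasMirrors ρ := by
  intro z _
  obtain ⟨u, hu, h0, h1⟩ : ∃ u : V, u ≠ 0 ∧ u 0 = 0 ∧ hp u z = 0 := by
    by_cases hz : z 1 = 0 ∧ z 2 = 0
    · refine ⟨![0, 1, 0], fun h => ?_, rfl, ?_⟩
      · have := congrFun h 1
        simp at this
      · simp [hp_eq, hz.1]
    · refine ⟨![0, -conj (z 2), conj (z 1)], fun h => hz ?_, rfl, ?_⟩
      · have h1 := congrFun h 1
        have h2 := congrFun h 2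
        simp at h1 h2
        exact ⟨h2, h1⟩
      · simp only [hp_eq, Matrix.cons_val_zero, Matrix.cons_val_one, Matrix.cons_val, map_zero,
          zero_mul, map_neg, Complex.conj_conj]
        ring
  obtain ⟨x, hx⟩ := h u hu h0
  exact ⟨u, hu, h1, x, 1, one_ne_zero, fun y => by rw [hx, one_smul]⟩

/-- the theorem, for all three conditions -/
theorem final' {X : Type} [Group X] [TopologicalSpace X] [IsTopologicalGroup X] [CompactSpace X]
    [SecondCountableTopology X] {ρ : X → V →L[ℝ] V} (hρ : UnitaryAction ρ)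
    (hR : HasMirrors ρ ∨ HasHalfTurns ρ ∨ HasPlaneReflections ρ) {C : Set (V → Bil)}
    (hC : Convex ℝ C) (h : ∀ Ω, IsForm Ω → InClass Ω → Inv ρ Ω → Ω ∈ C) :
    ContractibleSpace {Ω : Forms | Ω ∈ S ∧ Ω.val ∈ C ∧ ConvNondeg ρ Ω.val} ∧
      IsOpen {Ω : Forms | ConvNondeg ρ Ω.val} ∧
      (∀ Ω ∈ S, Inv ρ Ω.val → ConvNondeg ρ Ω.val) ∧
      (∀ Ω ∈ S, Inv ρ Ω.val → ∀ z : V, z ≠ 0 → ∀ v, (¬ ∃ c : ℂ, v = c • z) →
        0 < Ω.val z v (Complex.I • v)) ∧
      ContractibleSpace {Ω : Forms | Ω ∈ S ∧ Inv ρ Ω.val} := by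
  have hM : HasMirrors ρ := by
    rcases hR with h1 | h1 | h1
    · exact h1
    · exact mirrors_of_halfTurns h1
    · exact mirrors_of_plane h1
  obtain ⟨h1, h2, h3⟩ := final hρ.cont hρ.one hρ.mul hρ.csmul hρ.isom hM hC h
  exact ⟨h2, h3, fun Ω k1 k2 => k2.convNondeg k1.1, h1,
    contractible_inv (dat_of hρ.cont fun x => ⟨hρ.isom x, hρ.csmul x⟩) hM⟩

end Pool.Agent.K6.H10.MG
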