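import Pool.Agent.K6.H10.MG.Cty
import Pool.Agent.K6.H10.MG.Dfn
import Pool.Agent.K6.H10.AV.HUL

/-!
# Forms all convex combinations of whose translates are symplectic, for a compact group
-/

set_option autoImplicit false

open scoped Topology ComplexConjugate unitInterval
open MeasureTheory

noncomputable section

namespace Pool.Agent.K6.H10.MG

open Pool.Agent.K6.H10.SY
open Pool.Agent.K6.H10.AV (pl qb cont_qb' mq_apply)
open Pool.Agent.K6.H10.AV

section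

variable {X : Type} {ρ : X → V →L[ℝ] V}

theorem self_mem {x : X} (hx : ∀ z, ρ x z = z) (Ω : V → Bil) : Ω ∈ orbit ρ Ω :=
  ⟨x, fun z v w => by rw [hx, hx, hx]⟩

theorem ConvNondeg.nondeg {x : X} (hx : ∀ z, ρ x z = z) {Ω : V → Bil} (h : ConvNondeg ρ Ω) :
    Nondeg Ω :=
  h Ω (subset_convexHull ℝ _ (self_mem hx Ω))

theorem Inv.convNondeg {Ω : V → Bil} (h : Inv ρ Ω) (hn : Nondeg Ω) : ConvNondeg ρ Ω := by
  have h1 : orbit ρ Ω ⊆ {Ω} := by
    rintro η ⟨x, h3⟩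
    show η = Ω
    funext z
    ext v w
    rw [h3, h]
  intro η hη
  have h2 := convexHull_mono h1 hη
  rw [convexHull_singleton] at h2
  rw [h2]
  exact hn

/-- the evaluation at `z`, `v` -/
def ev (z v : V) : (V → Bil) →ₗ[ℝ] Lin where
  toFun η := η z v
  map_add' _ _ := rfl
  map_smul' _ _ := rfl

/-- the values of the pull-backs on `z`, `v` -/
def qx (ρ : X → V →L[ℝ] V) (Ω : V → Bil) (z v : V) (x : X) : Lin := pl (ρ x) (Ω (ρ x z) (ρ x v))

theorem zero_notMem {Ω : V → Bil} (h : ConvNondeg ρ Ω) {z : V} (hz : z ≠ 0) {v : V}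
    (hv : ¬ ∃ c : ℂ, v = c • z) : (0 : Lin) ∉ convexHull ℝ (Set.range (qx ρ Ω z v)) := by
  intro h0
  have h1 : Set.range (qx ρ Ω z v) ⊆ ev z v '' orbit ρ Ω := by
    rintro _ ⟨x, rfl⟩
    exact ⟨fun y => qb (ρ x) (pl (ρ x)) (Ω (ρ x y)), ⟨x, fun y v w => rfl⟩, rfl⟩
  have h2 := convexHull_mono h1 h0
  rw [← LinearMap.image_convexHull] at h2
  obtain ⟨η, hη, h3⟩ := h2
  refine hv (h η hη z hz v fun w => ?_)
  have h4 : η z v = 0 := h3
  rw [h4]
  rfl

end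

section

variable {X : Type} [Group X] [TopologicalSpace X] {ρ : X → V →L[ℝ] V} (D : Dat ρ)
  (hm : ∀ g h z, ρ (g * h) z = ρ h (ρ g z)) (hone : ∀ z, ρ 1 z = z)
  [CompactSpace X] [SecondCountableTopology X] [MeasurableSpace X] [BorelSpace X]
  [IsTopologicalGroup X] (μ : Measure X) [IsProbabilityMeasure μ] [μ.IsMulLeftInvariant]

include D in
omit [Group X] [IsTopologicalGroup X] [μ.IsMulLeftInvariant] in
theorem mean_mem {Ω : V → Bil} (hF : IsForm Ω) {z : V} (hz : z ≠ 0) (v : V) :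
    mean2 μ ρ Ω z v ∈ convexHull ℝ (Set.range (qx ρ Ω z v)) := by
  have h1 : mean2 μ ρ Ω z v = ∫ x, qx ρ Ω z v x ∂μ :=
    mq_apply μ D.cont D.pl D.map hF.smooth.continuousOn hz v
  rw [h1]
  exact HUL.t_HUL X μ Lin (qx ρ Ω z v)
    (cont_qb' D.cont D.pl D.map hF.smooth.continuousOn hz v)

include D hm in
theorem convNondeg_seg {Ω : V → Bil} (hF : IsForm Ω) (h : ConvNondeg ρ Ω) {a b : ℝ} (ha : 0 ≤ a)
    (hb : 0 ≤ b) (hab : a + b = 1) : ConvNondeg ρ (a • Ω + b • mean2 μ ρ Ω) := by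
  intro η hη z hz v hv
  by_contra hc
  have h1 : orbit ρ (a • Ω + b • mean2 μ ρ Ω) ⊆
      ev z v ⁻¹' convexHull ℝ (Set.range (qx ρ Ω z v)) := by
    rintro η' ⟨x, h3⟩
    have h4 : η' z v = a • qx ρ Ω z v x + b • mean2 μ ρ Ω z v := by
      ext w
      rw [h3]
      show a * Ω (ρ x z) (ρ x v) (ρ x w) + b * mean2 μ ρ Ω (ρ x z) (ρ x v) (ρ x w) =
        a * Ω (ρ x z) (ρ x v) (ρ x w) + b * mean2 μ ρ Ω z v w
      rw [inv_mean2 μ D hm hF]
    show η' z v ∈ convexHull ℝ (Set.range (qx ρ Ω z v))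
    rw [h4]
    exact convex_convexHull ℝ _ (subset_convexHull ℝ _ (Set.mem_range_self x))
      (mean_mem D μ hF hz v) ha hb hab
  have h2 : η ∈ ev z v ⁻¹' convexHull ℝ (Set.range (qx ρ Ω z v)) :=
    convexHull_min h1 ((convex_convexHull ℝ _).linear_preimage _) hη
  have h3 : η z v = 0 := by
    ext w
    exact hv w
  have h4 : η z v ∈ convexHull ℝ (Set.range (qx ρ Ω z v)) := h2
  rw [h3] at h4
  exact zero_notMem h hz hc h4

include hm hone in
/-- the theorem: the set is contractible if the set of the invariant forms is contractible -/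
theorem main (D : Dat ρ) (μ : Measure X) [IsProbabilityMeasure μ] [μ.IsMulLeftInvariant]
    {C : Set (V → Bil)} (hC : Convex ℝ C)
    (h : ∀ Ω, IsForm Ω → InClass Ω → Inv ρ Ω → Ω ∈ C)
    (hc : ContractibleSpace {Ω : Forms | Ω ∈ S ∧ Inv ρ Ω.val}) :
    ContractibleSpace {Ω : Forms | Ω ∈ S ∧ Ω.val ∈ C ∧ ConvNondeg ρ Ω.val} := by
  set U : Set Forms := {Ω : Forms | Ω ∈ S ∧ Ω.val ∈ C ∧ ConvNondeg ρ Ω.val} with hU
  have hseg : ∀ Ω ∈ U, ∀ a b : ℝ, 0 ≤ a → 0 ≤ b → a + b = 1 → comb a b Ω (meanF μ D Ω) ∈ U := by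
    intro Ω hΩ a b ha hb hab
    have h1 : ConvNondeg ρ (comb a b Ω (meanF μ D Ω)).val :=
      convNondeg_seg D hm μ Ω.property hΩ.2.2 ha hb hab
    have h2 : InClass (meanF μ D Ω).val := inClass_mean2 D μ Ω.property hΩ.1.2
    exact ⟨⟨h1.nondeg hone, hΩ.1.2.comb h2 hab⟩,
      hC hΩ.2.1 (h _ (meanF μ D Ω).property h2
        (fun x z v w => inv_mean2 μ D hm Ω.property x z v w)) ha hb hab, h1⟩
  have hmU : ∀ Ω ∈ U, meanF μ D Ω ∈ U := by
    intro Ω hΩ
    have h1 := hseg Ω hΩ 0 1 le_rfl zero_le_one (by ring)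
    rwa [comb_right rfl rfl] at h1
  have hSI : ∀ Ω : Forms, Ω ∈ S ∧ Inv ρ Ω.val → Ω ∈ U := fun Ω hΩ =>
    ⟨hΩ.1, h _ Ω.property hΩ.1.2 hΩ.2, hΩ.2.convNondeg hΩ.1.1⟩
  rw [contractible_iff_id_nullhomotopic] at hc ⊢
  let SI : Set Forms := {Ω : Forms | Ω ∈ S ∧ Inv ρ Ω.val}
  let r : C(U, SI) := ⟨fun Ω => ⟨meanF μ D Ω.1, (hmU Ω.1 Ω.2).1,
      fun x z v w => inv_mean2 μ D hm Ω.1.property x z v w⟩,
    ((continuous_meanF D μ).comp continuous_subtype_val).subtype_mk _⟩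
  let ι : C(SI, U) := ⟨fun Ω => ⟨Ω.1, hSI Ω.1 Ω.2⟩, continuous_subtype_val.subtype_mk _⟩
  have hF : (ι.comp ((ContinuousMap.id SI).comp r)).Nullhomotopic := (hc.comp_left r).comp_right ι
  have hp : Continuous fun p : I × U => (p.1 : ℝ) := continuous_subtype_val.comp continuous_fst
  have hc1 : Continuous fun p : I × U => comb (1 - p.1) p.1 p.2.1 (meanF μ D p.2.1) :=
    continuous_comb (continuous_const.sub hp) hp (continuous_subtype_val.comp continuous_snd)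
      ((continuous_meanF D μ).comp (continuous_subtype_val.comp continuous_snd))
  let H1 : ContinuousMap.Homotopy (ContinuousMap.id U) (ι.comp ((ContinuousMap.id SI).comp r)) :=
    { toFun := fun p => ⟨comb (1 - p.1) p.1 p.2.1 (meanF μ D p.2.1),
        hseg p.2.1 p.2.2 _ _ (by linarith [p.1.2.2]) p.1.2.1 (by ring)⟩
      continuous_toFun := hc1.subtype_mk _
      map_zero_left := fun Ω => Subtype.ext (comb_left (by simp) (by simp) _ _)
      map_one_left := fun Ω => Subtype.ext (comb_right (by simp) (by simp) _ _) }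
  obtain ⟨y, hy⟩ := hF
  exact ⟨y, ContinuousMap.Homotopic.trans ⟨H1⟩ hy⟩

end

end Pool.Agent.K6.H10.MG
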