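import Pool.Agent.K6.H10.AV.Gen
import Pool.Agent.K6.H10.AV.TAY
import Pool.Agent.K6.H10.SU.Res2

/-!
# The average of a form over a compact group
-/

set_option autoImplicit false

open scoped ContDiff Topology ComplexConjugate
open MeasureTheory

noncomputable section

namespace Pool.Agent.K6.H10.MG

open Pool.Agent.K6.H10.SY
open Pool.Agent.K6.H10.AV (pl qb mq intg mq_apply mq_smooth mq_fderiv cont_fd cont_qb' continuous_pl)
open Pool.Agent.K6.H10.AV

/-- a family of linear maps which preserve the Fubini-Study form -/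
structure Dat {X : Type} [TopologicalSpace X] (ρ : X → V →L[ℝ] V) : Prop where
  cont : Continuous ρ
  ne : ∀ {z : V}, z ≠ 0 → ∀ x, ρ x z ≠ 0
  csmul : ∀ (x : X) (c : ℂ) (z : V), ρ x (c • z) = c • ρ x z
  fs : ∀ (x : X) (z v w : V), SY.fs (ρ x z) (ρ x v) (ρ x w) = SY.fs z v w

section

variable {X : Type} [TopologicalSpace X] {ρ : X → V →L[ℝ] V} (D : Dat ρ)

include D

theorem Dat.map (x : X) (z : V) (hz : z ∈ V') : ρ x z ∈ V' := D.ne hz x

theorem Dat.pl : Continuous fun x => pl (ρ x) := continuous_pl.comp D.cont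

variable [CompactSpace X] [SecondCountableTopology X] [MeasurableSpace X] [BorelSpace X]
  (μ : Measure X)

omit D in
/-- the average of a two-form -/
def mean2 (ρ : X → V →L[ℝ] V) (Ω : V → Bil) : V → Bil := mq μ ρ (fun x => pl (ρ x)) Ω

omit D in
/-- the average of a one-form -/
def mean1 (ρ : X → V →L[ℝ] V) (α : V → Lin) : V → Lin :=
  mq μ ρ (fun _ => ContinuousLinearMap.id ℝ ℝ) α

theorem mean2_apply [IsFiniteMeasure μ] {Ω : V → Bil} (h : ContDiffOn ℝ ∞ Ω V') {z : V}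
    (hz : z ≠ 0) (v w : V) : mean2 μ ρ Ω z v w = ∫ x, Ω (ρ x z) (ρ x v) (ρ x w) ∂μ := by
  have h1 := mq_apply μ D.cont D.pl D.map h.continuousOn hz v
  have h2 : Integrable (fun x => pl (ρ x) (Ω (ρ x z) (ρ x v))) μ :=
    intg μ (cont_qb' D.cont D.pl D.map h.continuousOn hz v)
  show mq μ ρ (fun x => pl (ρ x)) Ω z v w = _
  rw [h1, ContinuousLinearMap.integral_apply h2]
  rfl

theorem mean1_apply [IsFiniteMeasure μ] {α : V → Lin} (h : ContDiffOn ℝ ∞ α V') {z : V}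
    (hz : z ≠ 0) (v : V) : mean1 μ ρ α z v = ∫ x, α (ρ x z) (ρ x v) ∂μ :=
  mq_apply μ D.cont continuous_const D.map h.continuousOn hz v

theorem isForm_mean2 [IsFiniteMeasure μ] {Ω : V → Bil} (h : IsForm Ω) :
    IsForm (mean2 μ ρ Ω) := by
  have hzero : mean2 μ ρ Ω 0 = 0 := by
    show ∫ x, qb (ρ x) (pl (ρ x)) (Ω (ρ x 0)) ∂μ = 0
    simp [h.zero]
  refine ⟨hzero, mq_smooth μ D.cont D.pl D.map isOpen_V' TAY.t_TAY h.smooth, ?_, ?_, ?_⟩
  · intro z v
    by_cases hz : z = 0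
    · rw [hz, hzero]
      rfl
    · rw [mean2_apply D μ h.smooth hz]
      simp [h.alt]
  · intro z hz c hc v w
    rw [mean2_apply D μ h.smooth (smul_ne_zero hc hz), mean2_apply D μ h.smooth hz]
    refine integral_congr_ae (Filter.Eventually.of_forall fun x => ?_)
    show Ω (ρ x (c • z)) (ρ x (c • v)) (ρ x (c • w)) = Ω (ρ x z) (ρ x v) (ρ x w)
    rw [D.csmul, D.csmul, D.csmul, h.inv _ (D.ne hz x) c hc]
  · intro z hz c w
    rw [mean2_apply D μ h.smooth hz]
    have h1 : ∀ x, Ω (ρ x z) (ρ x (c • z)) (ρ x w) = 0 := by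
      intro x
      rw [D.csmul, h.hor _ (D.ne hz x)]
    simp [h1]

theorem isOne_mean1 [IsFiniteMeasure μ] {α : V → Lin} (h : IsOne α) :
    IsOne (mean1 μ ρ α) := by
  refine ⟨mq_smooth μ D.cont continuous_const D.map isOpen_V' TAY.t_TAY h.smooth, ?_, ?_⟩
  · intro z hz c hc v
    rw [mean1_apply D μ h.smooth (smul_ne_zero hc hz), mean1_apply D μ h.smooth hz]
    refine integral_congr_ae (Filter.Eventually.of_forall fun x => ?_)
    show α (ρ x (c • z)) (ρ x (c • v)) = α (ρ x z) (ρ x v)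
    rw [D.csmul, D.csmul, h.inv _ (D.ne hz x) c hc]
  · intro z hz c
    rw [mean1_apply D μ h.smooth hz]
    have h1 : ∀ x, α (ρ x z) (ρ x (c • z)) = 0 := by
      intro x
      rw [D.csmul, h.hor _ (D.ne hz x)]
    simp [h1]

omit [MeasurableSpace X] [BorelSpace X] [CompactSpace X] [SecondCountableTopology X] in
theorem cont_ext {α : V → Lin} (h : IsOne α) {z : V} (hz : z ≠ 0) (v w : V) :
    Continuous fun x => ext α (ρ x z) (ρ x v) (ρ x w) := by
  have h1 : ∀ v w : V, Continuous fun x => fderiv ℝ α (ρ x z) (ρ x v) (ρ x w) := fun v w =>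
    cont_fd D.cont (p := fun _ => ContinuousLinearMap.id ℝ ℝ) continuous_const D.map isOpen_V'
      h.smooth hz v w
  exact (h1 v w).sub (h1 w v)

theorem ext_mean1 [IsFiniteMeasure μ] {α : V → Lin} (h : IsOne α) {z : V}
    (hz : z ≠ 0) (v w : V) : ext (mean1 μ ρ α) z v w = ∫ x, ext α (ρ x z) (ρ x v) (ρ x w) ∂μ := by
  have h1 : ∀ v w : V, fderiv ℝ (mean1 μ ρ α) z v w =
      ∫ x, fderiv ℝ α (ρ x z) (ρ x v) (ρ x w) ∂μ := fun v w =>
    mq_fderiv μ D.cont (p := fun _ => ContinuousLinearMap.id ℝ ℝ) continuous_const D.map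
      isOpen_V' TAY.t_TAY h.smooth hz v w
  have h4 : ∀ v w : V, Integrable (fun x => fderiv ℝ α (ρ x z) (ρ x v) (ρ x w)) μ := fun v w =>
    intg μ (cont_fd D.cont (p := fun _ => ContinuousLinearMap.id ℝ ℝ) continuous_const D.map
      isOpen_V' h.smooth hz v w)
  show fderiv ℝ (mean1 μ ρ α) z v w - fderiv ℝ (mean1 μ ρ α) z w v = _
  rw [h1, h1, ← integral_sub (h4 v w) (h4 w v)]
  rfl

theorem inClass_mean2 [IsProbabilityMeasure μ] {Ω : V → Bil} (hF : IsForm Ω)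
    (h : InClass Ω) : InClass (mean2 μ ρ Ω) := by
  obtain ⟨α, hα, h1⟩ := h
  refine ⟨mean1 μ ρ α, isOne_mean1 D μ hα, fun z hz => ?_⟩
  ext v w
  show mean2 μ ρ Ω z v w = SY.fs z v w + ext (mean1 μ ρ α) z v w
  rw [mean2_apply D μ hF.smooth hz, ext_mean1 D μ hα hz]
  have h2 : ∀ x, Ω (ρ x z) (ρ x v) (ρ x w) = SY.fs z v w + ext α (ρ x z) (ρ x v) (ρ x w) := by
    intro x
    rw [h1 _ (D.ne hz x), ← D.fs x z v w]
    rfl
  simp only [h2]
  rw [integral_add (integrable_const _) (intg μ (cont_ext D hα hz v w)), integral_const,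
    probReal_univ, one_smul]

omit D in
theorem inv_mean2 [Group X] [IsTopologicalGroup X] (D : Dat ρ)
    (hm : ∀ g h z, ρ (g * h) z = ρ h (ρ g z)) [IsFiniteMeasure μ] [μ.IsMulLeftInvariant]
    {Ω : V → Bil} (hF : IsForm Ω) (g : X) (z v w : V) :
    mean2 μ ρ Ω (ρ g z) (ρ g v) (ρ g w) = mean2 μ ρ Ω z v w := by
  by_cases hz : z = 0
  · rw [hz, map_zero]
    have hzero : mean2 μ ρ Ω 0 = 0 := by
      show ∫ x, qb (ρ x) (pl (ρ x)) (Ω (ρ x 0)) ∂μ = 0
      simp [hF.zero]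
    rw [hzero]
    rfl
  · rw [mean2_apply D μ hF.smooth (D.ne hz g), mean2_apply D μ hF.smooth hz,
      ← integral_mul_left_eq_self (fun x => Ω (ρ x z) (ρ x v) (ρ x w)) g]
    refine integral_congr_ae (Filter.Eventually.of_forall fun x => ?_)
    show Ω (ρ x (ρ g z)) (ρ x (ρ g v)) (ρ x (ρ g w)) = Ω (ρ (g * x) z) (ρ (g * x) v) (ρ (g * x) w)
    rw [hm, hm, hm]

end

end Pool.Agent.K6.H10.MG
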