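import Pool.Agent.K6.H10.MG.Uni

/-!
# Mirrors: positivity of invariant forms
-/

set_option autoImplicit false

open scoped Topology ComplexConjugate

noncomputable section

namespace Pool.Agent.K6.H10.MG

open Pool.Agent.K6.H10.SY
open Pool.Agent.K6.H10.SU (hp_eq nsq_eq crs zz zs zz_ne hp_zz_zs nsq_zz nsq_zs exists_pos zz_deriv zs_deriv)
open Complex (I)

/-- the form splits along the mirror with the normal `u` -/
def Mir (Ω : V → Bil) (u : V) : Prop :=
  ∀ z : V, z ≠ 0 → hp u z = 0 → ∀ t, hp u t = 0 → ∀ c : ℂ, Ω z t (c • u) = 0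

theorem ne_of_nsq {z : V} (h : nsq z = 1) : z ≠ 0 := by
  rintro rfl
  simp [nsq] at h

theorem hp_smul0 {u z : V} (h : hp u z = 0) (c : ℂ) : hp u (c • z) = 0 := by
  rw [hp_smul, h, mul_zero]

section

variable {Ω : V → Bil} (hF : IsForm Ω) {e u f : V} (h : ON e u f) (hM : Mir Ω u)

include hF

/-- vanishing on the direction of the orbit on the right -/
theorem hor' {z : V} (hz : z ≠ 0) (c : ℂ) (w : V) : Ω z w (c • z) = 0 := by
  rw [antisymm (hF.alt z), hF.hor z hz, neg_zero]

include h hM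

theorem val_f (x : V) : Ω e f (x 0 • u + x 1 • e + x 2 • f) = (x 2).im * Ω e f (I • f) := by
  have he := ne_of_nsq h.ee
  rw [map_add, map_add, hM e he (hp_swap h.eu) f h.uf, hor' hF he, smulC (x 2) f, map_add,
    map_smul, map_smul, hF.alt]
  simp

theorem val_u (x : V) : Ω e u (x 0 • u + x 1 • e + x 2 • f) = (x 0).im * Ω e u (I • u) := by
  have he := ne_of_nsq h.ee
  have h1 : Ω e u (x 2 • f) = 0 := by
    rw [antisymm (hF.alt e)]
    have := hM e he (hp_swap h.eu) (x 2 • f) (hp_smul0 h.uf _) 1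
    rw [one_smul] at this
    rw [this, neg_zero]
  rw [map_add, map_add, h1, hor' hF he, smulC (x 0) u, map_add,
    map_smul, map_smul, hF.alt]
  simp

theorem nz_f (hn : Nondeg Ω) : Ω e f (I • f) ≠ 0 := by
  intro h0
  obtain ⟨c, hc⟩ := hn e (ne_of_nsq h.ee) f fun w => by
    obtain ⟨x, hx⟩ := exists_coord h w
    rw [hx, val_f hF h hM, h0, mul_zero]
  have h1 := h.ef
  rw [hc, hp_smul, hp_self, h.ee] at h1
  have h2 : c = 0 := by simpa using h1
  exact ne_of_nsq h.ff (by rw [hc, h2, zero_smul])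

theorem nz_u (hn : Nondeg Ω) : Ω e u (I • u) ≠ 0 := by
  intro h0
  obtain ⟨c, hc⟩ := hn e (ne_of_nsq h.ee) u fun w => by
    obtain ⟨x, hx⟩ := exists_coord h w
    rw [hx, val_u hF h hM, h0, mul_zero]
  have h1 := h.eu
  rw [hc, hp_smul, hp_self, h.ee] at h1
  have h2 : c = 0 := by simpa using h1
  exact ne_of_nsq h.uu (by rw [hc, h2, zero_smul])

/-- positivity along the mirror -/
theorem pos_f (hn : Nondeg Ω) (hC : InClass Ω) : 0 < Ω e f (I • f) := by
  have hu := unit_gl3 h
  obtain ⟨Ω', h1, h2, h3⟩ := pull hu hF hC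
  obtain ⟨p, hp'⟩ := exists_pos h1 h2
  rw [h3 _ (zz_ne p), hu.csmul] at hp'
  have hfr : ∀ q : ℝ × ℝ, ON (gl3 e u f (zz q)) u (gl3 e u f (zs q)) := by
    intro q
    have hu0 : u = gl3 e u f ![1, 0, 0] := by
      rw [gl3_apply]
      simp
    have e1 : hp (zz q) ![1, 0, 0] = 0 := by
      simp [hp_eq, zz]
    have e2 : hp ![1, 0, 0] (zs q) = 0 := by
      simp [hp_eq, zs]
    refine ⟨?_, h.uu, ?_, ?_, ?_, ?_⟩
    · rw [nsq_g hu.hp, nsq_zz]
    · rw [nsq_g hu.hp, nsq_zs]
    · have e3 := hu.hp (zz q) ![1, 0, 0]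
      rw [← hu0, e1] at e3
      exact e3
    · rw [hu.hp, hp_zz_zs]
    · have e3 := hu.hp ![1, 0, 0] (zs q)
      rw [← hu0, e2] at e3
      exact e3
  have hcz : Continuous zz := by
    rw [continuous_iff_continuousAt]
    exact fun q => (zz_deriv q).continuousAt
  have hcs : Continuous zs := by
    rw [continuous_iff_continuousAt]
    exact fun q => (zs_deriv q).continuousAt
  have hgz : Continuous fun q => gl3 e u f (zz q) := (gl3 e u f).continuous.comp hcz
  have hgs : Continuous fun q => gl3 e u f (zs q) := (gl3 e u f).continuous.comp hcs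
  have hc : Continuous fun q : ℝ × ℝ =>
      Ω (gl3 e u f (zz q)) (gl3 e u f (zs q)) (I • gl3 e u f (zs q)) :=
    ((hF.smooth.continuousOn.comp_continuous hgz fun q => ne_of_nsq (hfr q).ee).clm_apply
      hgs).clm_apply (hgs.const_smul I)
  have e0 : gl3 e u f (zz (0, 0)) = e := by
    rw [gl3_apply]
    simp [zz]
  have f0 : gl3 e u f (zs (0, 0)) = f := by
    rw [gl3_apply]
    simp [zs]
  by_contra hcon
  rw [not_lt] at hcon
  obtain ⟨q, hq⟩ := mem_range_of_exists_le_of_exists_ge (c := (0 : ℝ)) hc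
    ⟨(0, 0), by rw [e0, f0]; exact hcon⟩ ⟨p, hp'.le⟩
  exact nz_f hF (hfr q) hM hn hq

end

/-- the value on the span -/
theorem pf_mod {B : Bil} (hB : ∀ v, B v v = 0) {y : V} (hy : ∀ (c : ℂ) (w : V), B (c • y) w = 0)
    (a b : V) (c d : ℂ) : pf B (a + c • y) (b + d • y) = pf B a b := by
  have h2 : ∀ (c : ℂ) (w : V), B w (c • y) = 0 := fun c w => by rw [antisymm hB, hy, neg_zero]
  simp only [pf, smul_add, smul_smul, map_add, add_apply, hy, h2, add_zero]

theorem pf_frame {B : Bil} (hB : ∀ v, B v v = 0) (e f : V) (p q r s : ℂ) :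
    pf B (p • e + q • f) (r • e + s • f) = Complex.normSq (p * s - q * r) * pf B e f := by
  have h1 : ∀ x y : ℂ, I • (x • e + y • f) = (I * x) • e + (I * y) • f := fun x y => by
    rw [smul_add, smul_smul, smul_smul]
  simp only [pf, h1]
  rw [smulC p e, smulC q f, smulC r e, smulC s f, smulC (I * p) e, smulC (I * q) f,
    smulC (I * r) e, smulC (I * s) f]
  simp only [map_add, map_smul, add_apply, smul_apply, smul_eq_mul, hB, Complex.mul_re,
    Complex.mul_im, Complex.I_re, Complex.I_im, Complex.normSq_apply, Complex.sub_re,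
    Complex.sub_im]
  rw [antisymm hB (I • e) e, antisymm hB f e, antisymm hB (I • f) e, antisymm hB f (I • e),
    antisymm hB (I • f) (I • e), antisymm hB (I • f) f]
  ring

end Pool.Agent.K6.H10.MG
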