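import Pool.Agent.K6.H10.MG.Fin
import Pool.Agent.K6.H10.AV.Opn

/-!
# The set of the forms is open
-/

set_option autoImplicit false

open scoped Topology ComplexConjugate Quaternion
open MeasureTheory

noncomputable section

namespace Pool.Agent.K6.H10.MG

open Pool.Agent.K6.H10.SY
open Pool.Agent.K6.H10.SU (WW isCompact_WW nsq_real hp_real nsq_eq)
open Pool.Agent.K6.H10.AV (sep convex_pos cont_joint cont_qb' QQ)
open Pool.Agent.K6.H10.AV

section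

variable {X : Type} [TopologicalSpace X] {ρ : X → V →L[ℝ] V} (D : Dat ρ)

/-- some vector pairs positively with all translates -/
def PP' (ρ : X → V →L[ℝ] V) (Ω : V → Bil) (z v : V) : Prop :=
  ∃ u, ∀ x, 0 < Ω (ρ x z) (ρ x v) (ρ x u)

include D

omit [TopologicalSpace X] D in
theorem conv_of_PP {Ω : V → Bil}
    (h : ∀ z : V, z ≠ 0 → ∀ v, (¬ ∃ c : ℂ, v = c • z) → PP' ρ Ω z v) : ConvNondeg ρ Ω := by
  intro η hη z hz v hv
  by_contra hc
  obtain ⟨u, hu⟩ := h z hz v hc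
  have h1 : orbit ρ Ω ⊆ {η | 0 < η z v u} := by
    rintro η' ⟨x, h3⟩
    show 0 < η' z v u
    rw [h3]
    exact hu x
  have h3 : 0 < η z v u := convexHull_min h1 (convex_pos z v u) hη
  rw [hv] at h3
  exact lt_irrefl _ h3

theorem PP_of_conv [CompactSpace X] [Nonempty X] {Ω : V → Bil} (hF : IsForm Ω) (h : ConvNondeg ρ Ω) {z : V}
    (hz : z ≠ 0) {v : V} (hv : ¬ ∃ c : ℂ, v = c • z) : PP' ρ Ω z v := by
  have h1 : Continuous (qx ρ Ω z v) := cont_qb' D.cont D.pl D.map hF.smooth.continuousOn hz v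
  have h2 : IsCompact (convexHull ℝ (Set.range (qx ρ Ω z v))) :=
    HUL.isCompact_hull (isCompact_range h1) (Set.range_nonempty _)
  obtain ⟨u, hu⟩ := sep h2 (convex_convexHull ℝ _) (zero_notMem h hz hv)
  exact ⟨u, fun x => hu _ (subset_convexHull ℝ _ (Set.mem_range_self x))⟩

/-- it is enough to consider unit vectors -/
theorem PP_of_WW {Ω : V → Bil} (hF : IsForm Ω)
    (h : ∀ q ∈ WW, PP' ρ Ω q.1 q.2) {z : V} (hz : z ≠ 0) {v : V}
    (hv : ¬ ∃ c : ℂ, v = c • z) : PP' ρ Ω z v := by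
  have hn : (nsq z : ℂ) ≠ 0 := by exact_mod_cast (nsq_pos hz).ne'
  obtain ⟨c, hc⟩ : ∃ c : ℂ, c = hp z v / nsq z := ⟨_, rfl⟩
  obtain ⟨w, hw⟩ : ∃ w : V, w = v - c • z := ⟨_, rfl⟩
  have hv2 : v = w + c • z := by rw [hw]; abel
  have hw1 : w ≠ 0 := fun h0 => hv ⟨c, by rw [hv2, h0, zero_add]⟩
  have hw0 : hp z w = 0 := by
    rw [hw, sub_eq_add_neg, ← neg_smul, hp_add, hp_smul, hp_self, hc]
    field_simp
    ring
  have hr : 0 < ‖z‖⁻¹ := inv_pos.2 (norm_pos_iff.2 hz)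
  have hrc : ((‖z‖⁻¹ : ℝ) : ℂ) ≠ 0 := by exact_mod_cast hr.ne'
  have hn' : 0 < nsq w := nsq_pos hw1
  have hs : 0 < (‖z‖ * (√(nsq w))⁻¹) :=
    mul_pos (norm_pos_iff.2 hz) (inv_pos.2 (Real.sqrt_pos.2 hn'))
  have h1 : ((‖z‖⁻¹ : ℝ) : ℂ) • z ∈ KK := by
    rw [mem_sphere_zero_iff_norm, norm_smul, Complex.norm_real, Real.norm_eq_abs,
      abs_of_pos hr, inv_mul_cancel₀ (norm_pos_iff.2 hz).ne']
  obtain ⟨u, hu⟩ := h (⟨_, h1⟩, ((‖z‖⁻¹ : ℝ) : ℂ) • (((‖z‖ * (√(nsq w))⁻¹ : ℝ) : ℂ) • w)) ⟨by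
    show nsq (((‖z‖⁻¹ : ℝ) : ℂ) • (((‖z‖ * (√(nsq w))⁻¹ : ℝ) : ℂ) • w)) = 1
    rw [nsq_real, nsq_real]
    have h5 := (norm_pos_iff.2 hz).ne'
    have h6 : √(nsq w) ^ 2 = nsq w := Real.sq_sqrt hn'.le
    have h7 := (Real.sqrt_pos.2 hn').ne'
    field_simp
    rw [h6], by
    show hp (((‖z‖⁻¹ : ℝ) : ℂ) • z) (((‖z‖⁻¹ : ℝ) : ℂ) •
      (((‖z‖ * (√(nsq w))⁻¹ : ℝ) : ℂ) • w)) = 0
    rw [hp_scale, hp_real, hw0, mul_zero, mul_zero]⟩
  refine ⟨((‖z‖⁻¹ : ℝ) : ℂ)⁻¹ • u, fun x => ?_⟩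
  have h2 : 0 < Ω (ρ x (((‖z‖⁻¹ : ℝ) : ℂ) • z))
      (ρ x (((‖z‖⁻¹ : ℝ) : ℂ) • (((‖z‖ * (√(nsq w))⁻¹ : ℝ) : ℂ) • w))) (ρ x u) := hu x
  obtain ⟨r, hr'⟩ : ∃ r : ℂ, r = ((‖z‖⁻¹ : ℝ) : ℂ) := ⟨_, rfl⟩
  obtain ⟨s, hs'⟩ : ∃ s : ℝ, s = ‖z‖ * (√(nsq w))⁻¹ := ⟨_, rfl⟩
  rw [← hr'] at h2 hrc ⊢
  rw [← hs'] at h2 hs
  have h3 : u = r • (r⁻¹ • u) := by rw [smul_smul, mul_inv_cancel₀ hrc, one_smul]
  have h4 : (s : ℂ) • w = s • w := by
    funext i
    simp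
  rw [h3, D.csmul, D.csmul, D.csmul x r (r⁻¹ • u), hF.inv _ (D.ne hz x) r hrc, h4, map_smul,
    map_smul, smul_apply, smul_eq_mul] at h2
  have h5 : 0 < Ω (ρ x z) (ρ x w) (ρ x (r⁻¹ • u)) := (mul_pos_iff_of_pos_left hs).1 h2
  rw [hv2, map_add, D.csmul x c z, map_add, add_apply, hF.hor _ (D.ne hz x), add_zero]
  exact h5

theorem isOpen_D [CompactSpace X] [Nonempty X] : IsOpen {Ω : Forms | ConvNondeg ρ Ω.val} := by
  rw [isOpen_iff_eventually]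
  intro Ω₀ h₀
  have h1 : ∀ᶠ Ω : Forms in 𝓝 Ω₀, ∀ q ∈ WW, PP' ρ Ω.val q.1 q.2 := by
    refine isCompact_WW.eventually_forall_of_forall_eventually
      (P := fun (Ω : Forms) (q : KK × V) => PP' ρ Ω.val q.1 q.2) fun q hq => ?_
    have hv : ¬ ∃ c : ℂ, q.2 = c • (q.1 : V) := by
      rintro ⟨c, hc⟩
      have h1' : nsq q.2 = 1 := hq.1
      have h2' : hp (q.1 : V) q.2 = 0 := hq.2
      have hz := (nsq_pos (KK_ne q.1)).ne'
      rw [hc, hp_smul, hp_self] at h2'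
      have h3 : c = 0 := by
        rcases mul_eq_zero.1 h2' with h | h
        · exact h
        · exact absurd (by exact_mod_cast h) hz
      rw [hc, h3, zero_smul] at h1'
      rw [nsq_eq] at h1'
      simp at h1'
    obtain ⟨u, hu⟩ := PP_of_conv D Ω₀.property h₀ (KK_ne q.1) hv
    have hc : Continuous fun s : (Forms × (KK × V)) × X =>
        s.1.1.val (ρ s.2 s.1.2.1) (ρ s.2 s.1.2.2) (ρ s.2 u) := by
      have e1 : Continuous fun s : (Forms × (KK × V)) × X => ρ s.2 s.1.2.1 :=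
        (D.cont.comp continuous_snd).clm_apply (continuous_subtype_val.comp
          (continuous_fst.comp (continuous_snd.comp continuous_fst)))
      have e2 : Continuous fun s : (Forms × (KK × V)) × X => ρ s.2 s.1.2.2 :=
        (D.cont.comp continuous_snd).clm_apply
          (continuous_snd.comp (continuous_snd.comp continuous_fst))
      have e3 : Continuous fun s : (Forms × (KK × V)) × X => ρ s.2 u :=
        (D.cont.comp continuous_snd).clm_apply continuous_const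
      have e4 : Continuous fun s : (Forms × (KK × V)) × X =>
          ((s.1.1, ((⟨ρ s.2 s.1.2.1, D.ne (KK_ne _) _⟩ : V'), (ρ s.2 s.1.2.2, ρ s.2 u))) :
            Forms × (V' × (V × V))) :=
        (continuous_fst.comp continuous_fst).prodMk ((e1.subtype_mk _).prodMk (e2.prodMk e3))
      exact cont_joint.comp e4
    have h2 : ∀ᶠ r : Forms × (KK × V) in 𝓝 (Ω₀, q), ∀ x ∈ (Set.univ : Set X),
        0 < r.1.val (ρ x r.2.1) (ρ x r.2.2) (ρ x u) :=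
      isCompact_univ.eventually_forall_of_forall_eventually
        (P := fun (r : Forms × (KK × V)) (x : X) => 0 < r.1.val (ρ x r.2.1) (ρ x r.2.2) (ρ x u))
        fun x _ => hc.continuousAt.eventually_const_lt (hu x)
    filter_upwards [h2] with r hr
    exact ⟨u, fun x => hr x trivial⟩
  filter_upwards [h1] with Ω hΩ
  exact conv_of_PP fun z hz v hv => PP_of_WW D Ω.property hΩ hz hv

end

end Pool.Agent.K6.H10.MG
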