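import Pool.Agent.K6.H10.MG.Mir
import Pool.Agent.K6.H10.SU.Top

/-!
# Forms with mirrors through all points are positive
-/

set_option autoImplicit false

open scoped Topology ComplexConjugate

noncomputable section

namespace Pool.Agent.K6.H10.MG

open Pool.Agent.K6.H10.SY
open Pool.Agent.K6.H10.SU (crs nsq_real)
open Complex (I)

/-- every point lies on a mirror -/
def Mirrors (Ω : V → Bil) : Prop := ∀ z : V, z ≠ 0 → ∃ u : V, u ≠ 0 ∧ hp u z = 0 ∧ Mir Ω u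

theorem exists_norm {u : V} (hu : u ≠ 0) : ∃ r : ℝ, 0 < r ∧ nsq ((r : ℂ) • u) = 1 := by
  have h := nsq_pos hu
  refine ⟨(√(nsq u))⁻¹, inv_pos.2 (Real.sqrt_pos.2 h), ?_⟩
  rw [nsq_real, inv_pow, Real.sq_sqrt h.le, inv_mul_cancel₀ h.ne']

theorem hp_real_left {u z : V} {r : ℝ} (hr : r ≠ 0) (h : hp ((r : ℂ) • u) z = 0) : hp u z = 0 := by
  rw [hp_smul_left, Complex.conj_ofReal] at h
  rcases mul_eq_zero.1 h with h1 | h1
  · exact absurd (by exact_mod_cast h1) hr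
  · exact h1

theorem Mir.real {Ω : V → Bil} {u : V} (h : Mir Ω u) {r : ℝ} (hr : r ≠ 0) :
    Mir Ω ((r : ℂ) • u) := by
  intro z hz h1 t h2 c
  rw [smul_smul]
  exact h z hz (hp_real_left hr h1) t (hp_real_left hr h2) _

theorem Mirrors.unit {Ω : V → Bil} (h : Mirrors Ω) {z : V} (hz : z ≠ 0) :
    ∃ u : V, nsq u = 1 ∧ hp u z = 0 ∧ Mir Ω u := by
  obtain ⟨u, h1, h2, h3⟩ := h z hz
  obtain ⟨r, hr, h4⟩ := exists_norm h1
  refine ⟨(r : ℂ) • u, h4, ?_, h3.real hr.ne'⟩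
  rw [hp_smul_left, h2, mul_zero]

theorem pf_at {Ω : V → Bil} (hF : IsForm Ω) {z : V} (hz : z ≠ 0) : ∃ (l : Fin 3) (y : V),
    y l = 1 ∧ ∀ a b : V, ∃ κ : ℝ, 0 ≤ κ ∧ pf (Ω z) a b = κ * pf (Ω y) (ee l) (ff l) := by
  obtain ⟨l, c, y, hc, hzy, hl, -⟩ := exists_scale hz
  have hy : y ≠ 0 := ne_zero_of hl
  have h1 : ∀ v w : V, Ω z v w = Ω y (c⁻¹ • v) (c⁻¹ • w) := by
    intro v w
    have := hF.inv y hy c hc (c⁻¹ • v) (c⁻¹ • w)
    rw [smul_smul, smul_smul, mul_inv_cancel₀ hc, one_smul, one_smul] at this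
    rw [hzy, this]
  have h2 : ∀ a b : V, pf (Ω z) a b = pf (Ω y) (c⁻¹ • a) (c⁻¹ • b) := by
    intro a b
    simp only [pf, h1]
    rw [smul_comm c⁻¹ I a, smul_comm c⁻¹ I b]
  have h3 : ∀ a : V, ∃ p q s : ℂ, a = (p • ee l + q • ff l) + s • y := by
    intro a
    have h4 := decomp l (a - a l • y) (by simp [hl])
    exact ⟨_, _, a l, by rw [← h4]; abel⟩
  refine ⟨l, y, hl, fun a b => ?_⟩
  obtain ⟨p, q, s, ha⟩ := h3 (c⁻¹ • a)
  obtain ⟨p', q', s', hb⟩ := h3 (c⁻¹ • b)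
  refine ⟨Complex.normSq (p * q' - q * p'), Complex.normSq_nonneg _, ?_⟩
  rw [h2, ha, hb, pf_mod (hF.alt y) (fun c w => hF.hor y hy c w), pf_frame (hF.alt y)]

section

variable {Ω : V → Bil} (hF : IsForm Ω)

include hF

theorem pf_split {e u f : V} (h : ON e u f) (hM : Mir Ω u) :
    pf (Ω e) f u = Ω e f (I • f) * Ω e u (I • u) := by
  have he := ne_of_nsq h.ee
  have h1 : Ω e f u = 0 := by
    have := hM e he (hp_swap h.eu) f h.uf 1
    rwa [one_smul] at this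
  have h2 := hM e he (hp_swap h.eu) f h.uf I
  unfold pf
  rw [h1, h2]
  ring

theorem pf_nonneg (hn : Nondeg Ω) (hC : InClass Ω) (hM : Mirrors Ω) {z : V} (hz : z ≠ 0)
    (a b : V) : 0 ≤ pf (Ω z) a b := by
  have h10 : (![1, 0, 0] : V) ≠ 0 := by
    intro h
    have := congrFun h 0
    simp at this
  obtain ⟨u₁, n1, -, m1⟩ := hM.unit h10
  obtain ⟨u₂, n2, p2, m2⟩ := hM.unit (ne_of_nsq n1)
  have o := on_crs n1 n2 (hp_swap p2)
  have o1 : ON (crs u₁ u₂) u₁ u₂ := ⟨o.ff, o.ee, o.uu, hp_swap o.ef, hp_swap o.uf, o.eu⟩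
  have o2 : ON (crs u₁ u₂) u₂ u₁ := ⟨o.ff, o.uu, o.ee, hp_swap o.uf, hp_swap o.ef, hp_swap o.eu⟩
  have k1 := pos_f hF o1 m1 hn hC
  have k2 := pos_f hF o2 m2 hn hC
  have k3 : 0 < pf (Ω (crs u₁ u₂)) u₂ u₁ := by
    rw [pf_split hF o1 m1]
    exact mul_pos k1 k2
  obtain ⟨l, y, hl, hk⟩ := pf_at hF (ne_of_nsq o1.ee)
  obtain ⟨κ, hκ, h1⟩ := hk u₂ u₁
  have k4 : 0 < pf (Ω y) (ee l) (ff l) := by
    rw [h1] at k3
    exact pos_of_mul_pos_right k3 hκ
  obtain ⟨m, w, hw, hk'⟩ := pf_at hF hz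
  obtain ⟨κ', hκ', h2⟩ := hk' a b
  rw [h2]
  exact mul_nonneg hκ' (pf_pos hF hn hl k4 m w hw).le

theorem pos_unit (hn : Nondeg Ω) (hC : InClass Ω) (hM : Mirrors Ω) {e : V} (he : nsq e = 1)
    {v : V} (hv : ¬ ∃ c : ℂ, v = c • e) : 0 < Ω e v (I • v) := by
  have he' := ne_of_nsq he
  obtain ⟨u, n1, p1, m1⟩ := hM.unit he'
  have o := on_crs he n1 (hp_swap p1)
  have hA := pos_f hF o m1 hn hC
  have hB : 0 < Ω e u (I • u) := by
    have h1 := pf_nonneg hF hn hC hM he' (crs e u) u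
    rw [pf_split hF o m1] at h1
    exact lt_of_le_of_ne (nonneg_of_mul_nonneg_right h1 hA) (nz_u hF o m1 hn).symm
  obtain ⟨x, hx⟩ := exists_coord o v
  have hv' : v = (x 2 • crs e u + x 0 • u) + x 1 • e := by rw [hx]; abel
  have e1 : ∀ (a c : ℂ), Ω e (a • crs e u) (c • u) = 0 := fun a c =>
    m1 e he' p1 (a • crs e u) (hp_smul0 o.uf _) c
  have e2 : ∀ (c : ℂ), Ω e (crs e u) (c • u) = 0 := fun c => m1 e he' p1 _ o.uf c
  have e3 : Ω e (crs e u) u = 0 := by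
    have := e2 1
    rwa [one_smul] at this
  have e4 : Ω e (I • crs e u) u = 0 := by
    have := e1 I 1
    rwa [one_smul] at this
  have h2 : Ω e v (I • v) = Ω e (x 2 • crs e u + x 0 • u) (I • (x 2 • crs e u + x 0 • u)) := by
    rw [hv', map_add, add_apply, hF.hor e he', add_zero, smul_add, map_add, smul_smul,
      hor' hF he', add_zero]
  rw [h2, quad (hF.alt e)]
  simp only [cP, cR, e1, e2, e3, e4, add_zero, sub_zero, neg_zero, mul_zero]
  have hne : x 2 ≠ 0 ∨ x 0 ≠ 0 := by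
    by_contra hc
    push Not at hc
    exact hv ⟨x 1, by rw [hx, hc.1, hc.2, zero_smul, zero_smul, zero_add, add_zero]⟩
  have q1 : ∀ w : ℂ, 0 ≤ w.re ^ 2 + w.im ^ 2 := fun w => by positivity
  have q2 : ∀ w : ℂ, w ≠ 0 → 0 < w.re ^ 2 + w.im ^ 2 := fun w hw => by
    have := Complex.normSq_pos.2 hw
    rw [Complex.normSq_apply] at this
    nlinarith
  rcases hne with hne | hne
  · have := mul_pos (q2 _ hne) hA
    have := mul_nonneg (q1 (x 0)) hB.le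
    linarith
  · have := mul_nonneg (q1 (x 2)) hA.le
    have := mul_pos (q2 _ hne) hB
    linarith

/-- a symplectic form in the class which splits along mirrors through all points is positive on all
complex directions -/
theorem positive (hn : Nondeg Ω) (hC : InClass Ω) (hM : Mirrors Ω) {z : V} (hz : z ≠ 0)
    {v : V} (hv : ¬ ∃ c : ℂ, v = c • z) : 0 < Ω z v (I • v) := by
  obtain ⟨r, hr, h1⟩ := exists_norm hz
  have hrc : (r : ℂ) ≠ 0 := by exact_mod_cast hr.ne'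
  have h2 := pos_unit hF hn hC hM h1 (v := (r : ℂ) • v) ?_
  · rw [smul_comm I, hF.inv z hz _ hrc] at h2
    exact h2
  · rintro ⟨c, hc⟩
    refine hv ⟨c, ?_⟩
    rw [smul_comm] at hc
    exact smul_right_injective V hrc hc

end

end Pool.Agent.K6.H10.MG
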