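import Pool.Agent.K6.H10.MG.Pos
import Pool.Agent.K6.H10.MG.Opn

/-!
# Compact groups with mirrors through all points
-/

set_option autoImplicit false

open scoped Topology ComplexConjugate unitInterval
open MeasureTheory

noncomputable section

namespace Pool.Agent.K6.H10.MG

open Pool.Agent.K6.H10.SY
open Pool.Agent.K6.H10.SU (isForm_fs fs_hor)

theorem mirrors_of_inv {X : Type} {ρ : X → V →L[ℝ] V} (hR : HasMirrors ρ) {Ω : V → Bil}
    (hF : IsForm Ω) (hI : Inv ρ Ω) : Mirrors Ω := by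
  intro z hz
  obtain ⟨u, hu, h1, x, c, hc, h2⟩ := hR z hz
  refine ⟨u, hu, h1, fun y hy h3 t h4 d => ?_⟩
  have hn : hp u u ≠ 0 := by
    rw [hp_self]
    exact_mod_cast (nsq_pos hu).ne'
  have e1 : ∀ y, hp u y = 0 → ρ x y = c • y := by
    intro y h
    rw [h2, refl, h, mul_zero, zero_div, zero_smul, sub_zero]
  have e2 : ρ x (d • u) = c • (-(d • u)) := by
    rw [h2, refl, hp_smul]
    congr 1
    have : 2 * (d * hp u u) / hp u u = 2 * d := by field_simp
    rw [this, mul_smul, two_smul]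
    abel
  have h5 := hI x y t (d • u)
  rw [e1 y h3, e1 t h4, e2, hF.inv y hy c hc, map_neg] at h5
  linarith

/-- a set of forms which is starlike with respect to one of its elements is contractible -/
theorem contractible_star {U : Set Forms} {τ : Forms} (hτ : τ ∈ U)
    (h : ∀ Ω ∈ U, ∀ t : ℝ, 0 ≤ t → t ≤ 1 → comb (1 - t) t Ω τ ∈ U) : ContractibleSpace U := by
  rw [contractible_iff_id_nullhomotopic]
  have hp : Continuous fun p : I × U => (p.1 : ℝ) := continuous_subtype_val.comp continuous_fst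
  have hc1 : Continuous fun p : I × U => comb (1 - p.1) p.1 p.2.1 τ :=
    continuous_comb (continuous_const.sub hp) hp (continuous_subtype_val.comp continuous_snd)
      continuous_const
  let H : ContinuousMap.Homotopy (ContinuousMap.id U) (ContinuousMap.const _ ⟨τ, hτ⟩) :=
    { toFun := fun p => ⟨comb (1 - p.1) p.1 p.2.1 τ, h p.2.1 p.2.2 _ p.1.2.1 p.1.2.2⟩
      continuous_toFun := hc1.subtype_mk _
      map_zero_left := fun Ω => Subtype.ext (comb_left (by simp) (by simp) _ _)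
      map_one_left := fun Ω => Subtype.ext (comb_right (by simp) (by simp) _ _) }
  exact ⟨_, ⟨H⟩⟩

/-- the Fubini-Study form is positive -/
theorem fs_positive {z v : V} (hz : z ≠ 0) (hv : ¬ ∃ c : ℂ, v = c • z) :
    0 < fs z v (Complex.I • v) := by
  obtain ⟨r, hr, h1⟩ := exists_norm hz
  have hrc : (r : ℂ) ≠ 0 := by exact_mod_cast hr.ne'
  obtain ⟨e, he⟩ : ∃ e : V, e = (r : ℂ) • z := ⟨_, rfl⟩
  obtain ⟨a, ha⟩ : ∃ a : V, a = (r : ℂ) • v := ⟨_, rfl⟩
  have h2 : fs z v (Complex.I • v) = fs e a (Complex.I • a) := by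
    rw [he, ha, smul_comm Complex.I, isForm_fs.inv z hz _ hrc]
  rw [← he] at h1
  have he' : e ≠ 0 := ne_of_nsq h1
  obtain ⟨w, hw⟩ : ∃ w : V, w = a - hp e a • e := ⟨_, rfl⟩
  have ha' : a = w + hp e a • e := by rw [hw]; abel
  have h3 : hp e w = 0 := by
    rw [hw, sub_eq_add_neg, ← neg_smul, hp_add, hp_smul, hp_self, h1]
    simp
  have hw0 : w ≠ 0 := by
    intro h0
    rw [h0, zero_add] at ha'
    refine hv ⟨hp e a, ?_⟩
    have h4 : (r : ℂ) • v = (r : ℂ) • (hp e a • z) := by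
      rw [← ha, smul_comm, ← he]
      exact ha'
    exact smul_right_injective V hrc h4
  have h4 : fs e a (Complex.I • a) = fs e w (Complex.I • w) := by
    conv_lhs => rw [ha']
    rw [map_add, add_apply, isForm_fs.hor e he', add_zero, smul_add, map_add, smul_smul,
      hor' isForm_fs he', add_zero]
  rw [h2, h4, fs_hor h1 h3, hp_smul, hp_self]
  have := nsq_pos hw0
  simp
  linarith

theorem inClass_fs : InClass fs := by
  refine ⟨fun _ => 0, ⟨contDiffOn_const, fun _ _ _ _ _ => rfl, fun _ _ _ => rfl⟩, fun z _ => ?_⟩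
  have h1 : ext (fun _ : V => (0 : Lin)) z = 0 := by
    unfold ext
    rw [fderiv_fun_const]
    ext v w
    simp
  rw [h1]
  exact (add_zero (fs z)).symm

theorem nondeg_of_pos {Ω : V → Bil}
    (h : ∀ z : V, z ≠ 0 → ∀ v, (¬ ∃ c : ℂ, v = c • z) → 0 < Ω z v (Complex.I • v)) :
    Nondeg Ω := by
  intro z hz v hv
  by_contra hc
  have := h z hz v hc
  rw [hv] at this
  exact lt_irrefl _ this

/-- the Fubini-Study form -/
def fsF : Forms := ⟨fs, isForm_fs⟩

section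

variable {X : Type} [TopologicalSpace X] {ρ : X → V →L[ℝ] V} (D : Dat ρ) (hR : HasMirrors ρ)

include D hR

theorem contractible_inv : ContractibleSpace {Ω : Forms | Ω ∈ S ∧ Inv ρ Ω.val} := by
  refine contractible_star (τ := fsF)
    ⟨⟨nondeg_of_pos fun z hz v hv => fs_positive hz hv, inClass_fs⟩, D.fs⟩ ?_
  rintro Ω ⟨hΩ, hI⟩ t ht ht'
  refine ⟨⟨nondeg_of_pos fun z hz v hv => ?_, hΩ.2.comb inClass_fs (by ring)⟩, ?_⟩
  · have h1 := positive Ω.property hΩ.1 hΩ.2 (mirrors_of_inv hR Ω.property hI) hz hv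
    have h2 := fs_positive hz hv
    show 0 < (1 - t) * Ω.val z v (Complex.I • v) + t * fs z v (Complex.I • v)
    rcases ht.lt_or_eq with h0 | h0
    · have := mul_pos h0 h2
      have := mul_nonneg (by linarith : (0 : ℝ) ≤ 1 - t) h1.le
      linarith
    · rw [← h0]
      linarith
  · intro x z v w
    show (1 - t) * Ω.val (ρ x z) (ρ x v) (ρ x w) + t * fs (ρ x z) (ρ x v) (ρ x w) =
      (1 - t) * Ω.val z v w + t * fs z v w
    rw [hI, D.fs]

end

/-- the inverse family -/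
theorem orbit_inv {X : Type} [Group X] (ρ : X → V →L[ℝ] V) (Ω : V → Bil) :
    orbit (fun x => ρ x⁻¹) Ω = orbit ρ Ω := by
  ext η
  constructor
  · rintro ⟨x, hx⟩
    exact ⟨x⁻¹, hx⟩
  · rintro ⟨x, hx⟩
    exact ⟨x⁻¹, by simpa using hx⟩

theorem convNondeg_inv {X : Type} [Group X] (ρ : X → V →L[ℝ] V) (Ω : V → Bil) :
    ConvNondeg (fun x => ρ x⁻¹) Ω ↔ ConvNondeg ρ Ω := by
  unfold ConvNondeg
  rw [orbit_inv]

/-- the theorem -/
theorem final {X : Type} [Group X] [TopologicalSpace X] [IsTopologicalGroup X] [CompactSpace X]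
    [SecondCountableTopology X] {ρ : X → V →L[ℝ] V} (hc : Continuous ρ) (h1 : ∀ z, ρ 1 z = z)
    (hm : ∀ g h z, ρ (g * h) z = ρ g (ρ h z)) (hl : ∀ x (c : ℂ) z, ρ x (c • z) = c • ρ x z)
    (hu : ∀ x z w, hp (ρ x z) (ρ x w) = hp z w) (hR : HasMirrors ρ) {C : Set (V → Bil)}
    (hC : Convex ℝ C) (h : ∀ Ω, IsForm Ω → InClass Ω → Inv ρ Ω → Ω ∈ C) :
    (∀ Ω ∈ S, Inv ρ Ω.val → ∀ z : V, z ≠ 0 → ∀ v, (¬ ∃ c : ℂ, v = c • z) →
      0 < Ω.val z v (Complex.I • v)) ∧
    ContractibleSpace {Ω : Forms | Ω ∈ S ∧ Ω.val ∈ C ∧ ConvNondeg ρ Ω.val} ∧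
      IsOpen {Ω : Forms | ConvNondeg ρ Ω.val} := by
  have D : Dat ρ := dat_of hc fun x => ⟨hu x, hl x⟩
  let ρ' : X → V →L[ℝ] V := fun x => ρ x⁻¹
  have D' : Dat ρ' := dat_of (hc.comp continuous_inv) fun x => ⟨hu x⁻¹, hl x⁻¹⟩
  let _ : MeasurableSpace X := borel X
  have : BorelSpace X := ⟨rfl⟩
  let μ : Measure X := Measure.haarMeasure ⊤
  have : IsProbabilityMeasure μ := ⟨Measure.haarMeasure_self (K₀ := ⊤)⟩
  have hi : ∀ Ω : V → Bil, Inv ρ' Ω ↔ Inv ρ Ω := fun Ω =>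
    ⟨fun k x => by simpa [ρ'] using k x⁻¹, fun k x => k x⁻¹⟩
  refine ⟨fun Ω hΩ hI z hz v hv => positive Ω.property hΩ.1 hΩ.2
    (mirrors_of_inv hR Ω.property hI) hz hv, ?_, isOpen_D D⟩
  have h3 := main (ρ := ρ') (fun g k z => by
      show ρ (g * k)⁻¹ z = ρ k⁻¹ (ρ g⁻¹ z)
      rw [mul_inv_rev, hm]) (fun z => by
      show ρ (1 : X)⁻¹ z = z
      rw [inv_one, h1]) D' μ hC (fun Ω k1 k2 k3 => h Ω k1 k2 ((hi Ω).1 k3)) (by
      have h4 := contractible_inv D hR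
      have h6 : {Ω : Forms | Ω ∈ S ∧ Inv ρ' Ω.val} = {Ω : Forms | Ω ∈ S ∧ Inv ρ Ω.val} := by
        ext Ω
        exact and_congr_right fun _ => hi Ω.val
      rw [h6]
      exact h4)
  have h5 : ∀ Ω : V → Bil, ConvNondeg ρ' Ω ↔ ConvNondeg ρ Ω := convNondeg_inv ρ
  have h6 : {Ω : Forms | Ω ∈ S ∧ Ω.val ∈ C ∧ ConvNondeg ρ' Ω.val} =
      {Ω : Forms | Ω ∈ S ∧ Ω.val ∈ C ∧ ConvNondeg ρ Ω.val} := by
    ext Ω
    exact and_congr_right fun _ => and_congr_right fun _ => h5 Ω.val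
  rw [← h6]
  exact h3

end Pool.Agent.K6.H10.MG
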