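import Pool.Agent.K6.H10.MG.Fin
import Pool.Agent.K6.H10.SU.Sto
import Pool.Agent.K6.H10.SU.Inv

/-!
# Orthonormal frames and pull-backs
-/

set_option autoImplicit false

open scoped Topology ComplexConjugate
open MeasureTheory

noncomputable section

namespace Pool.Agent.K6.H10.MG

open Pool.Agent.K6.H10.SY
open Pool.Agent.K6.H10.SU (hp_eq nsq_eq herm_hp crs)
open Complex (I)

section

variable {g : V → V} (hg : ∀ z w, hp (g z) (g w) = hp z w)

include hg

theorem nsq_g (z : V) : nsq (g z) = nsq z := by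
  have h := hg z z
  rw [hp_self, hp_self] at h
  exact_mod_cast h

theorem g_ne {z : V} (hz : z ≠ 0) : g z ≠ 0 := by
  intro h
  have h1 := nsq_g hg z
  have h2 := nsq_pos hz
  rw [h] at h1
  have h3 : nsq (0 : V) = 0 := by simp [nsq]
  linarith

theorem g_zero : g 0 = 0 := by
  by_contra h
  have h1 := nsq_g hg 0
  have h2 := nsq_pos h
  have h3 : nsq (0 : V) = 0 := by simp [nsq]
  linarith

theorem fs_g (z v w : V) : fs (g z) (g v) (g w) = fs z v w := by
  by_cases hz : z = 0
  · rw [hz, g_zero hg, fs, if_pos rfl]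
    rfl
  · rw [fs, if_neg (g_ne hg hz), fs, if_neg hz, log_zero,
      ext_formula sec_zero one_pos (g_ne hg hz), ext_formula sec_zero one_pos hz, herm_hp,
      herm_hp, Phi_zero, Phi_zero, nsq_g hg, hg, hg, hg]

end

/-- unitary maps -/
structure Unit' (g : V →L[ℝ] V) : Prop where
  hp : ∀ z w, SY.hp (g z) (g w) = SY.hp z w
  csmul : ∀ (c : ℂ) (z : V), g (c • z) = c • g z

/-- families of unitary maps -/
theorem dat_of {X : Type} [TopologicalSpace X] {ρ : X → V →L[ℝ] V} (hc : Continuous ρ)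
    (hu : ∀ x, Unit' (ρ x)) : Dat ρ :=
  ⟨hc, fun hz x => g_ne (hu x).hp hz, fun x => (hu x).csmul, fun x => fs_g (hu x).hp⟩

/-- the pull-back of a form in the class by a unitary map -/
theorem pull {g : V →L[ℝ] V} (hu : Unit' g) {Ω : V → Bil} (hF : IsForm Ω) (hC : InClass Ω) :
    ∃ Ω' : V → Bil, IsForm Ω' ∧ InClass Ω' ∧
      ∀ z : V, z ≠ 0 → ∀ v w, Ω' z v w = Ω (g z) (g v) (g w) := by
  have D : Dat (fun _ : unitInterval => g) := dat_of continuous_const fun _ => hu
  refine ⟨mean2 (volume : Measure unitInterval) (fun _ => g) Ω, isForm_mean2 D _ hF,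
    inClass_mean2 D _ hF hC, fun z hz v w => ?_⟩
  rw [mean2_apply D _ hF.smooth hz, integral_const, probReal_univ, one_smul]

/-- orthonormal frames -/
structure ON (e u f : V) : Prop where
  ee : nsq e = 1
  uu : nsq u = 1
  ff : nsq f = 1
  eu : hp e u = 0
  ef : hp e f = 0
  uf : hp u f = 0

/-- the unitary map with the columns `u`, `e`, `f` -/
def gl3 (e u f : V) : V →L[ℝ] V :=
  ((ContinuousLinearMap.proj (R := ℂ) (φ := fun _ : Fin 3 => ℂ) 0).smulRight u +
    (ContinuousLinearMap.proj (R := ℂ) (φ := fun _ : Fin 3 => ℂ) 1).smulRight e +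
    (ContinuousLinearMap.proj (R := ℂ) (φ := fun _ : Fin 3 => ℂ) 2).smulRight f).restrictScalars ℝ

theorem gl3_apply (e u f x : V) : gl3 e u f x = x 0 • u + x 1 • e + x 2 • f := rfl

theorem hp_swap {v w : V} (h : hp v w = 0) : hp w v = 0 := by
  rw [hp_conj, h, map_zero]

theorem unit_gl3 {e u f : V} (h : ON e u f) : Unit' (gl3 e u f) := by
  constructor
  · intro x y
    have h1 : hp e e = 1 := by rw [hp_self, h.ee, Complex.ofReal_one]
    have h2 : hp u u = 1 := by rw [hp_self, h.uu, Complex.ofReal_one]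
    have h3 : hp f f = 1 := by rw [hp_self, h.ff, Complex.ofReal_one]
    have h4 := h.eu
    have h5 := h.ef
    have h6 := h.uf
    have h7 := hp_swap h.eu
    have h8 := hp_swap h.ef
    have h9 := hp_swap h.uf
    rw [gl3_apply, gl3_apply]
    rw [hp_eq] at h1 h2 h3 h4 h5 h6 h7 h8 h9
    rw [hp_eq, hp_eq]
    simp only [Pi.add_apply, Pi.smul_apply, smul_eq_mul, map_add, map_mul]
    linear_combination (conj (x 1) * y 1) * h1 + (conj (x 0) * y 0) * h2 +
      (conj (x 2) * y 2) * h3 + (conj (x 1) * y 0) * h4 + (conj (x 1) * y 2) * h5 +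
      (conj (x 0) * y 2) * h6 + (conj (x 0) * y 1) * h7 + (conj (x 2) * y 1) * h8 +
      (conj (x 2) * y 0) * h9
  · intro c z
    rw [gl3_apply, gl3_apply]
    simp only [Pi.smul_apply, smul_eq_mul, smul_add, smul_smul]

theorem exists_coord {e u f : V} (h : ON e u f) (w : V) : ∃ x : V, w = x 0 • u + x 1 • e + x 2 • f := by
  have h1 : Function.Injective (gl3 e u f).toLinearMap := by
    rw [← LinearMap.ker_eq_bot, LinearMap.ker_eq_bot']
    intro x hx
    by_contra hne
    exact g_ne (unit_gl3 h).hp hne hx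
  have h2 := LinearMap.surjective_of_injective h1
  obtain ⟨x, hx⟩ := h2 w
  exact ⟨x, hx.symm⟩

theorem on_crs {e u : V} (he : nsq e = 1) (hu : nsq u = 1) (h : hp e u = 0) :
    ON e u (crs e u) := by
  have h1 : hp e e = 1 := by rw [hp_self, he, Complex.ofReal_one]
  have h2 : hp u u = 1 := by rw [hp_self, hu, Complex.ofReal_one]
  have h7 := hp_swap h
  have h0 := h
  refine ⟨he, hu, ?_, h0, ?_, ?_⟩
  · have h3 : hp (crs e u) (crs e u) = hp e e * hp u u - hp e u * hp u e := by
      simp only [hp_eq, crs, Matrix.cons_val_zero, Matrix.cons_val_one, Matrix.cons_val,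
        map_sub, map_mul, Complex.conj_conj]
      ring
    rw [h1, h2, h, h7, hp_self] at h3
    have h4 : ((nsq (crs e u) : ℝ) : ℂ) = ((1 : ℝ) : ℂ) := by rw [h3]; simp
    exact_mod_cast h4
  · simp only [hp_eq, crs, Matrix.cons_val_zero, Matrix.cons_val_one, Matrix.cons_val,
      map_sub, map_mul]
    ring
  · simp only [hp_eq, crs, Matrix.cons_val_zero, Matrix.cons_val_one, Matrix.cons_val,
      map_sub, map_mul]
    ring

end Pool.Agent.K6.H10.MG
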